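import Pool.Agent.Helper50.VD.St

open MeasureTheory Set Filter Topology
open scoped ENNReal

noncomputable section

namespace VD.M_E6

theorem BG_mono (hK9 : StK9) {A C : Set (ℝ × ℝ)} (hA : MeasurableSet A) (hC : MeasurableSet C)
    (hAO : A ⊆ Om) (hCO : C ⊆ Om) (vA : volume A < ∞) (vC : volume C < ∞) (nA : nu A < ∞)
    (nC : nu C < ∞) (h : A ⊆ C) : BG A A ≤ BG C C := by
  obtain ⟨-, -, hA0, hAe⟩ := hK9.1 A A hA hA hAO hAO vA vA nA nA
  obtain ⟨-, -, hC0, hCe⟩ := hK9.1 C C hC hC hCO hCO vC vC nC nC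
  rw [← ENNReal.ofReal_le_ofReal_iff hC0, hAe, hCe]
  exact lintegral_mono' (Measure.restrict_mono h le_rfl)
    (fun z => lintegral_mono' (Measure.restrict_mono h le_rfl) (fun _ => le_rfl))

/-- a unit strip of width w at height t -/
def St (w t : ℝ) : Set (ℝ × ℝ) := Ioc 0 w ×ˢ Ioc t (t + 1)

theorem measSt (w t : ℝ) : MeasurableSet (St w t) := measurableSet_Ioc.prod measurableSet_Ioc

theorem volSt (w t : ℝ) : volume (St w t) = ENNReal.ofReal w := by
  rw [St, Measure.volume_eq_prod, Measure.prod_prod, Real.volume_Ioc, Real.volume_Ioc]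
  simp

theorem nuSt {w t : ℝ} (hw : 0 ≤ w) (ht : 0 ≤ t) :
    nu (St w t) = ENNReal.ofReal (w * (t + 1 / 2)) := by
  have h1 : ∫⁻ s in Ioc t (t + 1), ENNReal.ofReal s = ENNReal.ofReal (t + 1 / 2) := by
    rw [← ofReal_integral_eq_lintegral_ofReal]
    · rw [← intervalIntegral.integral_of_le (by linarith), integral_id]
      congr 1; ring
    · exact (continuous_id.integrableOn_Icc).mono_set Ioc_subset_Icc_self
    · filter_upwards [ae_restrict_mem measurableSet_Ioc] with s hs
      exact ht.trans hs.1.le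
  rw [nu_apply (measSt w t), St, Measure.volume_eq_prod, ← Measure.prod_restrict]
  have h2 := lintegral_prod_mul (μ := volume.restrict (Ioc (0 : ℝ) w))
    (ν := volume.restrict (Ioc t (t + 1))) (f := fun _ => (1 : ℝ≥0∞))
    (g := fun s => ENNReal.ofReal s) aemeasurable_const
    (ENNReal.measurable_ofReal.aemeasurable)
  simp only [one_mul] at h2
  rw [h2, h1, lintegral_const, one_mul, Measure.restrict_apply MeasurableSet.univ, univ_inter,
    Real.volume_Ioc, sub_zero, ← ENNReal.ofReal_mul hw]

end VD.M_E6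

namespace VD

open VD.M_E6

/-- approximation by bounded sets with the same impulse -/
theorem mE6 (hK0 : StK0) (hK1 : StK1) (hK2 : StK2) (hK9 : StK9) : StE6 := by
  intro A hA hAO vA nA ε hε
  have hlim := hK9.2 A hA hAO vA nA
  have hev : ∀ᶠ R : ℝ in atTop, BG A A - ε < BG (A ∩ Box R) (A ∩ Box R) :=
    hlim.eventually (lt_mem_nhds (by linarith))
  obtain ⟨R, hR⟩ := hev.exists
  have mR : MeasurableSet (A ∩ Box R) := hA.inter (measurableSet_Box R)
  have mT : MeasurableSet (A \ Box R) := hA.diff (measurableSet_Box R)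
  have vT : volume (A \ Box R) < ∞ := lt_of_le_of_lt (measure_mono diff_subset) vA
  have nT : nu (A \ Box R) < ∞ := lt_of_le_of_lt (measure_mono diff_subset) nA
  have vR : volume (A ∩ Box R) < ∞ := lt_of_le_of_lt (measure_mono inter_subset_left) vA
  have nR : nu (A ∩ Box R) < ∞ := lt_of_le_of_lt (measure_mono inter_subset_left) nA
  have hv : volume (A ∩ Box R) + volume (A \ Box R) = volume A :=
    measure_inter_add_diff A (measurableSet_Box R)
  have hn : nu (A ∩ Box R) + nu (A \ Box R) = nu A :=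
    measure_inter_add_diff A (measurableSet_Box R)
  have sR : A ∩ Box R ⊆ Om := inter_subset_left.trans hAO
  -- the strip
  set n := (nu (A \ Box R)).toReal with hndef
  set v := (volume (A \ Box R)).toReal with hvdef
  have hn0 : 0 ≤ n := ENNReal.toReal_nonneg
  have hv0 : 0 ≤ v := ENNReal.toReal_nonneg
  obtain ⟨t, ht0, htR, hnt⟩ : ∃ t : ℝ, 0 ≤ t ∧ R ≤ t ∧ n / (t + 1 / 2) ≤ v := by
    rcases hv0.eq_or_lt with h | h
    · have h1 : volume (A \ Box R) = 0 := by
        rcases (ENNReal.toReal_eq_zero_iff _).1 h.symm with h | h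
        · exact h
        · exact absurd h vT.ne
      have h2 : nu (A \ Box R) = 0 := by
        by_contra hc
        have := (nu_pos_iff mT (diff_subset.trans hAO)).1 (pos_iff_ne_zero.2 hc)
        exact absurd h1 this.ne'
      have h3 : n = 0 := by rw [hndef, h2]; rfl
      refine ⟨max R 0, le_max_right _ _, le_max_left _ _, ?_⟩
      rw [h3, zero_div]; exact hv0
    · refine ⟨max (max R 0) (n / v), (le_max_right _ _).trans (le_max_left _ _),
        (le_max_left _ _).trans (le_max_left _ _), ?_⟩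
      have h4 : n / v ≤ max (max R 0) (n / v) := le_max_right _ _
      have h5 : 0 ≤ max (max R 0) (n / v) := (le_max_right _ _).trans (le_max_left _ _)
      rw [div_le_iff₀ (by linarith)]
      rw [div_le_iff₀ h] at h4
      nlinarith
  set w := n / (t + 1 / 2) with hw
  have hw0 : 0 ≤ w := div_nonneg hn0 (by linarith)
  have hwn : w * (t + 1 / 2) = n := by rw [hw]; field_simp
  have hSO : St w t ⊆ Om := by
    intro z hz
    exact lt_of_le_of_lt ht0 hz.2.1
  have hdisj : Disjoint (A ∩ Box R) (St w t) := by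
    rw [Set.disjoint_left]
    rintro z ⟨-, -, -, h1⟩ h2
    have := h2.2.1
    linarith
  have hnu : nu ((A ∩ Box R) ∪ St w t) = nu A := by
    rw [measure_union hdisj (measSt w t), nuSt hw0 ht0, hwn, hndef, ENNReal.ofReal_toReal nT.ne, hn]
  have hvol : volume ((A ∩ Box R) ∪ St w t) ≤ volume A := by
    rw [measure_union hdisj (measSt w t), volSt, ← hv]
    gcongr
    rw [← ENNReal.ofReal_toReal vT.ne]
    exact ENNReal.ofReal_le_ofReal hnt
  have hAO' : (A ∩ Box R) ∪ St w t ⊆ Om := union_subset sR hSO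
  refine ⟨(A ∩ Box R) ∪ St w t, mR.union (measSt w t), hAO', ⟨max (max R w) (t + 1), ?_⟩, hvol,
    hnu, ?_⟩
  · rintro z (hz | hz)
    · exact Box_mono ((le_max_left _ _).trans (le_max_left _ _)) hz.2
    · have h1 := hz.1.1
      have h2 := hz.1.2
      have h3 := hz.2.2
      refine ⟨?_, hSO hz, h3.trans (le_max_right _ _)⟩
      rw [abs_of_pos h1]
      exact h2.trans ((le_max_right _ _).trans (le_max_left _ _))
  · have := BG_mono hK9 mR (mR.union (measSt w t)) sR hAO' vR (lt_of_le_of_lt hvol vA) nR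
      (by rw [hnu]; exact nA) subset_union_left
    linarith

end VD
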